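import Pool.Agent.Helper227.Force4
import Pool.Agent.Helper227.KT2

set_option autoImplicit false

namespace Pool.Agent.Results.MP_3d42d9_lc.LRTransferFails

open Pool.Agent.Helper227
open MeasureTheory Encodable
open scoped ENNReal

/-- `A ≤_LR B`: every set that is Martin-Löf random relative to `B` is Martin-Löf random
relative to `A`. -/
def LRle (A B : ℕ → Bool) : Prop := ∀ X : ℕ → Bool, MLR B X → MLR A X

/-- the selection of bits: the `l`-th bit of block `k` of the new sequence is the `l`-th bit of
the block of the old one coded by `T` restricted to `k` -/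
def jT (T : ℕ → Bool) (m : ℕ) : ℕ :=
  Nat.pair (encode (pre T (Nat.unpair m).1)) (Nat.unpair m).2

theorem jT_injective (T : ℕ → Bool) : Function.Injective (jT T) := by
  intro m m' h
  obtain ⟨h1, h2⟩ := Nat.pair_eq_pair.1 h
  have h3 := congrArg List.length (encode_injective h1)
  rw [length_pre, length_pre] at h3
  have h4 : Nat.unpair m = Nat.unpair m' := Prod.ext h3 h2
  rw [← Nat.pair_unpair m, ← Nat.pair_unpair m', h4]

theorem mlr_jT {T B : ℕ → Bool} (h : MLR T B) : MLR T (fun m => B (jT T m)) := by
  refine h.select (jT_injective T)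
    (fun α m => Nat.pair (encode (α.take (Nat.unpair m).1)) (Nat.unpair m).2)
    (fun α m => (Nat.unpair m).1 ≤ α.length) ?_ ?_ ?_ ?_
  · exact Primrec₂.natPair.comp (Primrec.encode.comp (Primrec.list_take.comp
      (Primrec.fst.comp (Primrec.unpair.comp Primrec.snd)) Primrec.fst))
      (Primrec.snd.comp (Primrec.unpair.comp Primrec.snd))
  · exact Primrec.nat_le.comp (Primrec.fst.comp (Primrec.unpair.comp Primrec.snd))
      (Primrec.list_length.comp Primrec.fst)
  · intro s i h1
    rw [length_pre] at h1
    simp only [jT]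
    rw [take_pre _ _ _ h1]
  · intro i
    refine ⟨(Nat.unpair i).1, fun s hs => ?_⟩
    simpa using hs

theorem rd_append {σ ρ : List Bool} {g : ℕ → ℕ} {t : ℕ} (h : ∀ i < t, g i < σ.length) :
    rd (σ ++ ρ) g t = rd σ g t := by
  unfold rd
  refine List.map_congr_left fun i hi => ?_
  rw [List.mem_range] at hi
  rw [List.getD_append _ _ _ _ (h i hi)]

theorem tLe_jT (T B : ℕ → Bool) : TLe (fun m => B (jT T m)) (join T B) := by
  rw [tLe_iff]
  refine ⟨fun x => 2 * (Nat.unpair x.2.1).1 ≤ x.1.length ∧
    x.1[2 * Nat.pair (encode (rd x.1 (fun i => 2 * i) (Nat.unpair x.2.1).1))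
      (Nat.unpair x.2.1).2 + 1]? = some x.2.2, S1.of_prim ?_, ?_, ?_⟩
  · have e1 : Primrec fun x : List Bool × ℕ × Bool => (Nat.unpair x.2.1).1 :=
      Primrec.fst.comp (Primrec.unpair.comp (Primrec.fst.comp Primrec.snd))
    have e2 : Primrec fun x : List Bool × ℕ × Bool => (Nat.unpair x.2.1).2 :=
      Primrec.snd.comp (Primrec.unpair.comp (Primrec.fst.comp Primrec.snd))
    refine PrimrecPred.and ?_ ?_
    · exact Primrec.nat_le.comp (Primrec.nat_mul.comp (Primrec.const 2) e1)
        (Primrec.list_length.comp Primrec.fst)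
    · refine Primrec.eq.comp (Primrec.list_getElem?.comp Primrec.fst (Primrec.succ.comp
        (Primrec.nat_mul.comp (Primrec.const 2) (Primrec₂.natPair.comp (Primrec.encode.comp ?_)
        e2)))) (Primrec.option_some.comp (Primrec.snd.comp Primrec.snd))
      exact primrec_rd (g := fun _ i => 2 * i) Primrec.fst
        (Primrec.nat_mul.comp (Primrec.const 2) Primrec.snd) e1
  · rintro σ τ n b ⟨ρ, rfl⟩ ⟨h1, h2⟩
    simp only at h1 h2 ⊢
    refine ⟨by rw [List.length_append]; omega, ?_⟩
    rw [rd_append (fun i hi => by omega)]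
    rw [List.getElem?_append_left]
    · exact h2
    · by_contra hc
      rw [List.getElem?_eq_none (by omega)] at h2
      cases h2
  · intro n b
    have key : ∀ s, 2 * (Nat.unpair n).1 ≤ s →
        rd (pre (join T B) s) (fun i => 2 * i) (Nat.unpair n).1 = pre T (Nat.unpair n).1 := by
      intro s hs
      rw [rd_pre (fun i hi => by omega)]
      simp only [join_even]
    constructor
    · intro h
      refine ⟨max (2 * (Nat.unpair n).1) (2 * jT T n + 1 + 1), by simp, ?_⟩
      simp only
      rw [key _ (le_max_left _ _)]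
      change (pre (join T B) _)[2 * jT T n + 1]? = some b
      rw [pre_getElem? _ _ _ (by omega), join_odd, h]
    · rintro ⟨s, h1, h2⟩
      simp only [length_pre] at h1 h2
      rw [key s h1] at h2
      change (pre (join T B) s)[2 * jT T n + 1]? = some b at h2
      by_cases hlt : 2 * jT T n + 1 < s
      · rw [pre_getElem? _ _ _ hlt, join_odd] at h2
        simpa using h2
      · rw [pre_getElem?_none _ _ _ (by omega)] at h2
        cases h2

/-- There are a random set `A` and sets `B`, `C` with `A ≤_LR B`, such that `B` is `C`-random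
but `A` is not `C`-random. -/
theorem result : ∃ A B C : ℕ → Bool, MLR (fun _ => false) A ∧ LRle A B ∧ MLR C B ∧ ¬ MLR C A := by
  obtain ⟨T, hT, hlow⟩ := exists_lowForRandom
  obtain ⟨B, C, hCB, hz⟩ := exists_generic hT
  have hzero : ∀ D : ℕ → Bool, TLe (fun _ => false) D := by
    intro D
    have h1 : Computable (fun _ : ℕ => (false : Bool).toNat) := Computable.const _
    exact Partrec.turingReducible (f := chi (fun _ => false)) h1.partrec
  have hB0 : MLR (fun _ => false) B := hCB.mono (hzero C)
  have hBT : MLR T B := hlow B hB0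
  refine ⟨fun m => B (jT T m), B, C, ?_, ?_, hCB, ?_⟩
  · exact (mlr_jT hBT).mono (hzero T)
  · intro X hX
    have h1 : MLR (join (fun _ => false) B) X := by
      refine hX.mono (join_tLe (hzero B) (TLe.refl B))
    have h2 : MLR (fun _ => false) (join B X) := hB0.join_of h1
    have h3 : MLR T (join B X) := hlow _ h2
    exact h3.right_rel.mono (tLe_jT T B)
  · refine not_mlr_of_zeros (fun n => ?_)
    obtain ⟨p, h1, h2, h3⟩ := hz n
    refine ⟨p, h1, h2, fun l hl => ?_⟩
    have := h3 l hl
    simp only [jT, Nat.unpair_pair]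
    exact this

end Pool.Agent.Results.MP_3d42d9_lc.LRTransferFails
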